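import Mathlib

/-!
Denominators `(∏ b_j ^ e_j) k`, `1 ≤ e_j ≤ i`, `4 ^ i ≤ k < 4 ^ (i + 1)`, `k ≡ 1 mod 6 ∏ b_j`, for
pairwise coprime bases `b_j`: counting and totients.
-/

set_option autoImplicit false

open Finset

namespace Pool.Agent.KS6_93.HAL

variable {s : ℕ} (b : Fin s → ℕ)

/-- the product of the bases -/
def BB : ℕ := ∏ j, b j

/-- the modulus -/
def QQ : ℕ := 6 * BB b

/-- the smooth part -/
def MM (e : Fin s → ℕ) : ℕ := ∏ j, b j ^ e j

/-- the denominator -/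
def qf (p : (Fin s → ℕ) × ℕ) : ℕ := MM b p.1 * p.2

/-- the cofactors of level `i` -/
def KK (i : ℕ) : Finset ℕ := (Ico (4 ^ i) (4 ^ (i + 1))).filter fun k => k % QQ b = 1

/-- the level `i` -/
def Sh (i : ℕ) : Finset ((Fin s → ℕ) × ℕ) :=
  (Fintype.piFinset fun _ => Icc 1 i) ×ˢ KK b i

variable {b}

lemma BB_pos (hb : ∀ j, 2 ≤ b j) : 0 < BB b :=
  Finset.prod_pos fun j _ => by have := hb j; omega

lemma QQ_ge (hb : ∀ j, 2 ≤ b j) : 6 ≤ QQ b := by
  have := BB_pos hb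
  unfold QQ
  omega

lemma MM_pos (hb : ∀ j, 2 ≤ b j) (e : Fin s → ℕ) : 0 < MM b e :=
  Finset.prod_pos fun j _ => by have := hb j; positivity

lemma mem_KK {i k : ℕ} (h : k ∈ KK b i) : 4 ^ i ≤ k ∧ k < 4 ^ (i + 1) ∧ k % QQ b = 1 := by
  unfold KK at h
  rw [mem_filter, mem_Ico] at h
  exact ⟨h.1.1, h.1.2, h.2⟩

lemma coprime_QQ {k : ℕ} (h : k % QQ b = 1) : Nat.Coprime k (QQ b) := by
  rw [Nat.coprime_comm]
  unfold Nat.Coprime
  rw [Nat.gcd_rec, h]
  exact Nat.gcd_one_left _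

lemma coprime_BB {k : ℕ} (h : k % QQ b = 1) : Nat.Coprime k (BB b) :=
  (coprime_QQ h).coprime_dvd_right (Dvd.intro_left 6 rfl)

lemma coprime_base {k : ℕ} (h : k % QQ b = 1) (j : Fin s) : Nat.Coprime k (b j) :=
  (coprime_BB h).coprime_dvd_right (Finset.dvd_prod_of_mem b (mem_univ j))

lemma mem_Sh {i : ℕ} {p : (Fin s → ℕ) × ℕ} (h : p ∈ Sh b i) :
    (∀ j, 1 ≤ p.1 j ∧ p.1 j ≤ i) ∧ 4 ^ i ≤ p.2 ∧ p.2 < 4 ^ (i + 1) ∧ p.2 % QQ b = 1 := by
  unfold Sh at h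
  rw [mem_product, Fintype.mem_piFinset] at h
  refine ⟨fun j => by have := h.1 j; rwa [mem_Icc] at this, ?_⟩
  exact mem_KK h.2

lemma log_Sh {i : ℕ} {p : (Fin s → ℕ) × ℕ} (h : p ∈ Sh b i) : Nat.log 4 p.2 = i := by
  obtain ⟨_, h1, h2, _⟩ := mem_Sh h
  exact (Nat.log_eq_iff (Or.inr ⟨by norm_num, by
    have : 1 ≤ 4 ^ i := Nat.one_le_pow _ _ (by norm_num)
    omega⟩)).2 ⟨h1, h2⟩

lemma not_lt_aux (hb : ∀ j, 2 ≤ b j) (hc : Pairwise fun i j => Nat.Coprime (b i) (b j))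
    {e e' : Fin s → ℕ} {k k' : ℕ} (hk : k % QQ b = 1)
    (h : MM b e * k = MM b e' * k') (j : Fin s) : ¬ e j < e' j := by
  intro hlt
  have h1 : b j ^ (e j + 1) ∣ MM b e * k := by
    rw [h]
    refine Dvd.dvd.mul_right ?_ _
    exact (pow_dvd_pow _ hlt).trans (Finset.dvd_prod_of_mem (fun j => b j ^ e' j) (mem_univ j))
  have h2 : MM b e = b j ^ e j * ∏ l ∈ univ.erase j, b l ^ e l :=
    (Finset.mul_prod_erase univ (fun j => b j ^ e j) (mem_univ j)).symm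
  rw [h2, mul_assoc, pow_succ] at h1
  have hpos : 0 < b j ^ e j := by have := hb j; positivity
  have h3 := Nat.dvd_of_mul_dvd_mul_left hpos h1
  have h4 : Nat.Coprime (b j) (∏ l ∈ univ.erase j, b l ^ e l) := by
    apply Nat.Coprime.prod_right
    intro l hl
    exact Nat.Coprime.pow_right _ (hc (ne_of_mem_erase hl).symm)
  have h5 : Nat.Coprime (b j) ((∏ l ∈ univ.erase j, b l ^ e l) * k) :=
    Nat.Coprime.mul_right h4 (coprime_base hk j).symm
  have h6 := Nat.eq_one_of_dvd_coprimes h5 dvd_rfl h3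
  have := hb j
  omega

lemma qf_inj (hb : ∀ j, 2 ≤ b j) (hc : Pairwise fun i j => Nat.Coprime (b i) (b j))
    {p p' : (Fin s → ℕ) × ℕ} (hp : p.2 % QQ b = 1) (hp' : p'.2 % QQ b = 1)
    (h : qf b p = qf b p') : p = p' := by
  unfold qf at h
  have h1 : p.1 = p'.1 := by
    funext j
    have h2 := not_lt_aux hb hc hp h j
    have h3 := not_lt_aux hb hc hp' h.symm j
    omega
  rw [h1] at h
  exact Prod.ext h1 (Nat.eq_of_mul_eq_mul_left (MM_pos hb _) h)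

lemma primeFactors_MM (hb : ∀ j, 2 ≤ b j) {i : ℕ} {e : Fin s → ℕ} (he : ∀ j, 1 ≤ e j ∧ e j ≤ i) :
    (MM b e).primeFactors = (BB b).primeFactors := by
  apply Finset.Subset.antisymm
  · have h1 : MM b e ∣ BB b ^ (i + 1) := by
      unfold MM BB
      rw [← Finset.prod_pow]
      exact Finset.prod_dvd_prod_of_dvd _ _ fun j _ => pow_dvd_pow _ (by have := he j; omega)
    have h2 := Nat.primeFactors_mono h1 (pow_ne_zero _ (BB_pos hb).ne')
    rwa [Nat.primeFactors_pow _ (by omega)] at h2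
  · apply Nat.primeFactors_mono _ (MM_pos hb e).ne'
    unfold MM BB
    exact Finset.prod_dvd_prod_of_dvd _ _ fun j _ => dvd_pow_self _ (by have := he j; omega)

lemma phi_MM (hb : ∀ j, 2 ≤ b j) {i : ℕ} {e : Fin s → ℕ} (he : ∀ j, 1 ≤ e j ∧ e j ≤ i) :
    1 / (BB b : ℝ) ≤ (Nat.totient (MM b e) : ℝ) / MM b e := by
  have h1 := Nat.totient_eq_mul_prod_factors (MM b e)
  have h2 := Nat.totient_eq_mul_prod_factors (BB b)
  rw [primeFactors_MM hb he] at h1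
  have h4 : (Nat.totient (MM b e) : ℚ) * BB b = MM b e * Nat.totient (BB b) := by
    rw [h1, h2]
    ring
  have h5 : Nat.totient (MM b e) * BB b = MM b e * Nat.totient (BB b) := by exact_mod_cast h4
  have h6 : MM b e ≤ Nat.totient (MM b e) * BB b := by
    rw [h5]
    exact Nat.le_mul_of_pos_right _ (Nat.totient_pos.2 (BB_pos hb))
  have hM : (0 : ℝ) < MM b e := by exact_mod_cast MM_pos hb e
  have hB : (0 : ℝ) < BB b := by exact_mod_cast BB_pos hb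
  rw [div_le_div_iff₀ hB hM, one_mul]
  exact_mod_cast h6

lemma one_sub_sum_le {ι : Type*} (t : Finset ι) (f : ι → ℝ) (h0 : ∀ i ∈ t, 0 ≤ f i)
    (h1 : ∀ i ∈ t, f i ≤ 1) : 1 - ∑ i ∈ t, f i ≤ ∏ i ∈ t, (1 - f i) := by
  classical
  induction t using Finset.induction_on with
  | empty => simp
  | insert a t ha ih =>
    rw [sum_insert ha, prod_insert ha]
    have h2 := ih (fun i hi => h0 i (mem_insert_of_mem hi)) (fun i hi => h1 i (mem_insert_of_mem hi))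
    have h3 := h0 a (mem_insert_self _ _)
    have h4 := h1 a (mem_insert_self _ _)
    have h5 : 0 ≤ ∑ i ∈ t, f i := sum_nonneg fun i hi => h0 i (mem_insert_of_mem hi)
    nlinarith

/-- `φ(k) / k ≥ 1 - ∑_{p ∣ k} 1 / p` -/
lemma phi_ge {k : ℕ} (hk : 0 < k) :
    1 - ∑ p ∈ k.primeFactors, 1 / (p : ℝ) ≤ (Nat.totient k : ℝ) / k := by
  have h1 := Nat.totient_eq_mul_prod_factors k
  have h2 : (Nat.totient k : ℝ) = k * ∏ p ∈ k.primeFactors, (1 - 1 / (p : ℝ)) := by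
    have h3 : ((Nat.totient k : ℚ) : ℝ) = ((k * ∏ p ∈ k.primeFactors, (1 - (p : ℚ)⁻¹) : ℚ) : ℝ) := by
      rw [h1]
    push_cast at h3
    simpa [one_div] using h3
  have hkR : (0 : ℝ) < k := by exact_mod_cast hk
  rw [h2, mul_div_cancel_left₀ _ hkR.ne']
  apply one_sub_sum_le
  · intro p _
    positivity
  · intro p hp
    have h3 : (1 : ℝ) ≤ p := by exact_mod_cast (Nat.prime_of_mem_primeFactors hp).one_lt.le
    rw [div_le_one (by linarith)]
    exact h3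

/-- multiples of `n` in a level -/
lemma card_mult (hb : ∀ j, 2 ≤ b j) (i n : ℕ) (hn : 0 < n) (hc : Nat.Coprime n (QQ b)) :
    (((KK b i).filter fun k => n ∣ k).card : ℝ) ≤ 3 * 4 ^ i / (QQ b * n) + 2 := by
  have hQ : 0 < QQ b := by have := QQ_ge hb; omega
  have h1 : ((KK b i).filter fun k => n ∣ k).card ≤
      (Icc (4 ^ i / (QQ b * n)) (4 ^ (i + 1) / (QQ b * n))).card := by
    apply Finset.card_le_card_of_injOn (fun k => k / (QQ b * n))
    · intro k hk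
      rw [coe_filter, Set.mem_ofPred_eq] at hk
      obtain ⟨h1, h2, h3⟩ := mem_KK hk.1
      rw [coe_Icc, Set.mem_Icc]
      exact ⟨Nat.div_le_div_right h1, Nat.div_le_div_right h2.le⟩
    · intro k hk k' hk' hkk
      rw [coe_filter, Set.mem_ofPred_eq] at hk hk'
      obtain ⟨_, _, h3⟩ := mem_KK hk.1
      obtain ⟨_, _, h3'⟩ := mem_KK hk'.1
      have h4 : k ≡ k' [MOD QQ b] := h3.trans h3'.symm
      have h5 : k ≡ k' [MOD n] :=
        ((Nat.modEq_zero_iff_dvd.2 hk.2).trans (Nat.modEq_zero_iff_dvd.2 hk'.2).symm)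
      have h6 : k ≡ k' [MOD QQ b * n] := (Nat.modEq_and_modEq_iff_modEq_mul hc.symm).1 ⟨h4, h5⟩
      have h7 := Nat.div_add_mod k (QQ b * n)
      have h8 := Nat.div_add_mod k' (QQ b * n)
      have h9 : k / (QQ b * n) = k' / (QQ b * n) := hkk
      have h10 : k % (QQ b * n) = k' % (QQ b * n) := h6
      rw [← h7, ← h8, h9, h10]
  rw [Nat.card_Icc] at h1
  have hpos : (0 : ℝ) < QQ b * n := by
    have h2 : 0 < QQ b * n := Nat.mul_pos hQ hn
    exact_mod_cast h2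
  have h2 : ((4 ^ (i + 1) / (QQ b * n) : ℕ) : ℝ) ≤ 4 ^ (i + 1) / (QQ b * n) := by
    have := @Nat.cast_div_le ℝ _ _ _ (4 ^ (i + 1)) (QQ b * n)
    push_cast at this
    exact this
  have h3 : (4 : ℝ) ^ i / (QQ b * n) - 1 ≤ ((4 ^ i / (QQ b * n) : ℕ) : ℝ) := by
    have h4 := Nat.lt_floor_add_one ((4 : ℝ) ^ i / (QQ b * n))
    have h5 : ⌊(4 : ℝ) ^ i / (QQ b * n)⌋₊ = 4 ^ i / (QQ b * n) := by
      have := @Nat.floor_div_eq_div ℝ _ _ _ _ (4 ^ i) (QQ b * n)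
      push_cast at this
      exact this
    rw [h5] at h4
    linarith
  have h4 : 4 ^ i / (QQ b * n) ≤ 4 ^ (i + 1) / (QQ b * n) :=
    Nat.div_le_div_right (Nat.pow_le_pow_right (by norm_num) (by omega))
  have h5 : (((KK b i).filter fun k => n ∣ k).card : ℝ) ≤
      ((4 ^ (i + 1) / (QQ b * n) : ℕ) : ℝ) + 1 - ((4 ^ i / (QQ b * n) : ℕ) : ℝ) := by
    have h6 : ((KK b i).filter fun k => n ∣ k).card + 4 ^ i / (QQ b * n) ≤
        4 ^ (i + 1) / (QQ b * n) + 1 := by omega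
    have h7 : (((KK b i).filter fun k => n ∣ k).card : ℝ) + ((4 ^ i / (QQ b * n) : ℕ) : ℝ) ≤
        ((4 ^ (i + 1) / (QQ b * n) : ℕ) : ℝ) + 1 := by exact_mod_cast h6
    linarith
  have h6 : (4 : ℝ) ^ (i + 1) / (QQ b * n) = 3 * 4 ^ i / (QQ b * n) + 4 ^ i / (QQ b * n) := by
    rw [pow_succ]
    ring
  linarith

lemma card_KK_ge (hb : ∀ j, 2 ≤ b j) (i : ℕ) :
    3 * 4 ^ i / (QQ b : ℝ) - 2 ≤ ((KK b i).card : ℝ) := by
  have hQ : 6 ≤ QQ b := QQ_ge hb
  have h1 : (Ico (4 ^ i / QQ b + 1) (4 ^ (i + 1) / QQ b)).card ≤ (KK b i).card := by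
    apply Finset.card_le_card_of_injOn (fun m => QQ b * m + 1)
    · intro m hm
      rw [coe_Ico, Set.mem_Ico] at hm
      show QQ b * m + 1 ∈ KK b i
      unfold KK
      rw [mem_filter, mem_Ico]
      have h2 : 4 ^ i < QQ b * (4 ^ i / QQ b + 1) := Nat.lt_mul_div_succ _ (by omega)
      have h3 : QQ b * (4 ^ i / QQ b + 1) ≤ QQ b * m := Nat.mul_le_mul_left _ hm.1
      have h4 : QQ b * (m + 1) ≤ QQ b * (4 ^ (i + 1) / QQ b) := Nat.mul_le_mul_left _ hm.2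
      have h5 : QQ b * (4 ^ (i + 1) / QQ b) ≤ 4 ^ (i + 1) := Nat.mul_div_le _ _
      have h6 : QQ b * (m + 1) = QQ b * m + QQ b := by ring
      refine ⟨⟨by omega, by omega⟩, ?_⟩
      rw [Nat.mul_add_mod]
      exact Nat.mod_eq_of_lt (by omega)
    · intro m _ m' _ h
      have h2 : QQ b * m + 1 = QQ b * m' + 1 := h
      have h3 : QQ b * m = QQ b * m' := by omega
      exact Nat.eq_of_mul_eq_mul_left (by omega) h3
  rw [Nat.card_Ico] at h1
  have hpos : (0 : ℝ) < QQ b := by exact_mod_cast (by omega : 0 < QQ b)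
  have h2 : ((4 ^ i / QQ b : ℕ) : ℝ) ≤ 4 ^ i / (QQ b : ℝ) := by
    have := @Nat.cast_div_le ℝ _ _ _ (4 ^ i) (QQ b)
    push_cast at this
    exact this
  have h3 : (4 : ℝ) ^ (i + 1) / (QQ b : ℝ) - 1 ≤ ((4 ^ (i + 1) / QQ b : ℕ) : ℝ) := by
    have h4 := Nat.lt_floor_add_one ((4 : ℝ) ^ (i + 1) / (QQ b : ℝ))
    have h5 : ⌊(4 : ℝ) ^ (i + 1) / (QQ b : ℝ)⌋₊ = 4 ^ (i + 1) / QQ b := by
      have := @Nat.floor_div_eq_div ℝ _ _ _ _ (4 ^ (i + 1)) (QQ b)
      push_cast at this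
      exact this
    rw [h5] at h4
    linarith
  have h4 : 4 ^ (i + 1) / QQ b ≤ (KK b i).card + (4 ^ i / QQ b + 1) := by omega
  have h5 : ((4 ^ (i + 1) / QQ b : ℕ) : ℝ) ≤ (KK b i).card + (((4 ^ i / QQ b : ℕ) : ℝ) + 1) := by
    exact_mod_cast h4
  have h6 : (4 : ℝ) ^ (i + 1) / (QQ b : ℝ) = 3 * 4 ^ i / (QQ b : ℝ) + 4 ^ i / (QQ b : ℝ) := by
    rw [pow_succ]
    ring
  linarith

lemma card_KK_le (i : ℕ) : ((KK b i).card : ℝ) ≤ 3 * 4 ^ i := by
  have h1 : (KK b i).card ≤ 4 ^ (i + 1) - 4 ^ i := by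
    rw [← Nat.card_Ico]
    exact card_filter_le _ _
  have h2 : 4 ^ (i + 1) = 4 * 4 ^ i := by ring
  have h3 : (KK b i).card ≤ 3 * 4 ^ i := by omega
  exact_mod_cast h3

/-- the totients of a level -/
lemma sum_phi (hb : ∀ j, 2 ≤ b j) {i : ℕ} (hi : max (QQ b) 5 ≤ i) :
    4 ^ i / (QQ b : ℝ) ≤ ∑ k ∈ KK b i, (Nat.totient k : ℝ) / k := by
  classical
  have hQ : 6 ≤ QQ b := QQ_ge hb
  have hpos : (0 : ℝ) < QQ b := by exact_mod_cast (by omega : 0 < QQ b)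
  set X := 4 ^ (i + 1) with hX
  set T := (Ioc 4 X).filter fun n => Nat.Coprime n (QQ b) with hT
  have h1 : ∑ k ∈ KK b i, ∑ p ∈ k.primeFactors, 1 / (p : ℝ) ≤
      ∑ n ∈ T, (1 / (n : ℝ)) * (3 * 4 ^ i / (QQ b * n) + 2) := by
    calc ∑ k ∈ KK b i, ∑ p ∈ k.primeFactors, 1 / (p : ℝ) ≤
        ∑ k ∈ KK b i, ∑ n ∈ T, if n ∣ k then 1 / (n : ℝ) else 0 := by
          refine sum_le_sum fun k hk => ?_
          obtain ⟨h1, h2, h3⟩ := mem_KK hk
          have h4 := coprime_QQ h3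
          rw [← sum_filter]
          apply sum_le_sum_of_subset_of_nonneg
          · intro p hp
            have hpp := Nat.prime_of_mem_primeFactors hp
            have hpk := Nat.dvd_of_mem_primeFactors hp
            have hk0 : 0 < k := lt_of_lt_of_le (by positivity) h1
            have hpc : Nat.Coprime p (QQ b) := h4.coprime_dvd_left hpk
            rw [mem_filter, hT, mem_filter, mem_Ioc]
            refine ⟨⟨⟨?_, (Nat.le_of_dvd hk0 hpk).trans h2.le⟩, hpc⟩, hpk⟩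
            have h6 : (6 : ℕ) ∣ QQ b := Dvd.intro _ rfl
            have hp6 : Nat.Coprime p 6 := hpc.coprime_dvd_right h6
            by_contra hle
            have h2' := hpp.two_le
            have h7 : p = 2 ∨ p = 3 ∨ p = 4 := by omega
            rcases h7 with rfl | rfl | rfl
            · norm_num at hp6
            · norm_num at hp6
            · norm_num at hpp
          · intro n _ _
            positivity
      _ = ∑ n ∈ T, ∑ k ∈ KK b i, if n ∣ k then 1 / (n : ℝ) else 0 := sum_comm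
      _ ≤ _ := by
          refine sum_le_sum fun n hn => ?_
          rw [hT, mem_filter, mem_Ioc] at hn
          rw [← sum_filter, sum_const, nsmul_eq_mul, mul_comm]
          have h2 := card_mult hb i n (by omega) hn.2
          have h3 : (0 : ℝ) ≤ 1 / (n : ℝ) := by positivity
          exact mul_le_mul_of_nonneg_left h2 h3
  have h2 : ∑ n ∈ T, (1 / (n : ℝ)) * (3 * 4 ^ i / (QQ b * n) + 2) ≤
      ∑ n ∈ Ioc 4 X, (3 * 4 ^ i / (QQ b : ℝ) * ((n : ℝ) ^ 2)⁻¹ + 2 * (n : ℝ)⁻¹) := by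
    calc _ = ∑ n ∈ T, (3 * 4 ^ i / (QQ b : ℝ) * ((n : ℝ) ^ 2)⁻¹ + 2 * (n : ℝ)⁻¹) := by
          refine sum_congr rfl fun n hn => ?_
          rw [hT, mem_filter, mem_Ioc] at hn
          have : (0 : ℝ) < n := by exact_mod_cast (by omega : 0 < n)
          field_simp
      _ ≤ _ := sum_le_sum_of_subset_of_nonneg (filter_subset _ _) fun n _ _ => by positivity
  rw [sum_add_distrib, ← mul_sum, ← mul_sum] at h2
  have hX4 : 4 ≤ X := by
    rw [hX, pow_succ]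
    have : 1 ≤ 4 ^ i := Nat.one_le_pow _ _ (by norm_num)
    omega
  have h3 : ∑ n ∈ Ioc 4 X, ((n : ℝ) ^ 2)⁻¹ ≤ 1 / 4 := by
    have h4 := sum_Ioc_inv_sq_le_sub (α := ℝ) (k := 4) (n := X) (by norm_num) hX4
    have h5 : (0 : ℝ) ≤ (X : ℝ)⁻¹ := by positivity
    have h6 : ((4 : ℕ) : ℝ)⁻¹ = 1 / 4 := by norm_num
    rw [h6] at h4
    linarith
  have h4 : ∑ n ∈ Ioc 4 X, (n : ℝ)⁻¹ ≤ 1 + Real.log X := by
    have h5 := harmonic_le_one_add_log X
    have h6 : ((harmonic X : ℚ) : ℝ) = ∑ n ∈ Ioc 0 X, (n : ℝ)⁻¹ := by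
      rw [harmonic_eq_sum_Icc]
      push_cast
      rfl
    rw [h6] at h5
    refine le_trans ?_ h5
    apply sum_le_sum_of_subset_of_nonneg
    · exact Ioc_subset_Ioc_left (by norm_num)
    · intro n _ _
      positivity
  have h5 : Real.log X ≤ (i + 1) * (3 / 2) := by
    rw [hX]
    push_cast
    rw [Real.log_pow]
    have h6 : Real.log 4 ≤ 3 / 2 := by
      have h7 : Real.log 4 = 2 * Real.log 2 := by
        rw [show (4 : ℝ) = 2 ^ 2 by norm_num, Real.log_pow]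
        norm_num
      have := Real.log_two_lt_d9
      rw [h7]
      linarith
    push_cast
    have h8 : (0 : ℝ) ≤ (i : ℝ) + 1 := by positivity
    exact mul_le_mul_of_nonneg_left h6 h8
  have h6 : ((KK b i).card : ℝ) - ∑ k ∈ KK b i, ∑ p ∈ k.primeFactors, 1 / (p : ℝ) ≤
      ∑ k ∈ KK b i, (Nat.totient k : ℝ) / k := by
    have h7 : ((KK b i).card : ℝ) = ∑ k ∈ KK b i, (1 : ℝ) := by simp
    rw [h7, ← sum_sub_distrib]
    refine sum_le_sum fun k hk => phi_ge ?_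
    obtain ⟨h1, _, _⟩ := mem_KK hk
    exact lt_of_lt_of_le (by positivity) h1
  have h7 := card_KK_ge hb i
  -- growth
  have h8 : QQ b * (3 * i + 8) ≤ 4 ^ i := by
    have h9 : QQ b ≤ i := (le_max_left _ _).trans hi
    have h10 : 5 ≤ i := (le_max_right _ _).trans hi
    have h11 : i < 2 ^ i := Nat.lt_pow_self (by norm_num)
    have h12 : 3 * i + 8 ≤ 2 ^ i := by
      clear_value X
      clear h1 h2 h3 h4 h5 h6 h7 h9 h11 hi hX hX4
      induction i, h10 using Nat.le_induction with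
      | base => norm_num
      | succ n hn ih => rw [pow_succ]; omega
    calc QQ b * (3 * i + 8) ≤ 2 ^ i * 2 ^ i := Nat.mul_le_mul (h9.trans h11.le) h12
      _ = 4 ^ i := by rw [← mul_pow]; norm_num
  have h9 : (QQ b : ℝ) * (3 * i + 8) ≤ 4 ^ i := by exact_mod_cast h8
  have h10 : (3 : ℝ) * i + 8 ≤ 4 ^ i / (QQ b : ℝ) := by
    rw [le_div_iff₀ hpos]
    linarith
  have h11 : 3 * 4 ^ i / (QQ b : ℝ) = 3 * (4 ^ i / (QQ b : ℝ)) := by ring
  rw [h11] at h2 h7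
  set Y := (4 : ℝ) ^ i / (QQ b : ℝ) with hY
  have h12 : 3 * Y * ∑ n ∈ Ioc 4 X, ((n : ℝ) ^ 2)⁻¹ ≤ 3 * Y * (1 / 4) := by
    apply mul_le_mul_of_nonneg_left h3
    positivity
  have h13 := h1.trans h2
  have h14 : (0 : ℝ) ≤ i := Nat.cast_nonneg _
  linarith

end Pool.Agent.KS6_93.HAL
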