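import Mathlib
import Pool.Agent.KS6_93.HAL.Num

/-!
Empty boxes of the Halton-Kronecker sequence.
-/

set_option autoImplicit false

open Finset

namespace Pool.Agent.KS6_93.HAL

/-- the radical inverse in base `b` -/
noncomputable def radInv (b n : ℕ) : ℝ := ∑ j ∈ range n, ((n / b ^ j % b : ℕ) : ℝ) / b ^ (j + 1)

lemma digit_zero {b n e : ℕ} (hb : 2 ≤ b) (h : radInv b n < 1 / (b : ℝ) ^ e) {j : ℕ} (hj : j < e) :
    n / b ^ j % b = 0 := by
  by_contra h0
  have hbR : (1 : ℝ) ≤ b := by exact_mod_cast (by omega : 1 ≤ b)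
  have hjn : j < n := by
    by_contra hle
    push Not at hle
    have h1 : n < b ^ n := Nat.lt_pow_self (by omega)
    have h2 : b ^ n ≤ b ^ j := Nat.pow_le_pow_right (by omega) hle
    rw [Nat.div_eq_of_lt (lt_of_lt_of_le h1 h2), Nat.zero_mod] at h0
    exact h0 rfl
  have h1 : ((n / b ^ j % b : ℕ) : ℝ) / b ^ (j + 1) ≤ radInv b n :=
    single_le_sum (f := fun j => ((n / b ^ j % b : ℕ) : ℝ) / (b : ℝ) ^ (j + 1))
      (fun j _ => by positivity) (mem_range.2 hjn)
  have h2 : (1 : ℝ) ≤ ((n / b ^ j % b : ℕ) : ℝ) := by exact_mod_cast Nat.pos_of_ne_zero h0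
  have h3 : 1 / (b : ℝ) ^ e ≤ 1 / (b : ℝ) ^ (j + 1) :=
    one_div_le_one_div_of_le (by positivity) (pow_le_pow_right₀ hbR hj)
  have h4 : 1 / (b : ℝ) ^ (j + 1) ≤ ((n / b ^ j % b : ℕ) : ℝ) / b ^ (j + 1) := by gcongr
  linarith

lemma dvd_of_radInv {b n e : ℕ} (hb : 2 ≤ b) (h : radInv b n < 1 / (b : ℝ) ^ e) : b ^ e ∣ n := by
  have key : ∀ j, j ≤ e → b ^ j ∣ n := by
    intro j
    induction j with
    | zero => intro _; simp
    | succ j ih =>
      intro hj
      obtain ⟨m, hm⟩ := ih (by omega)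
      have h1 := digit_zero hb h (j := j) (by omega)
      rw [hm, Nat.mul_div_cancel_left _ (by positivity)] at h1
      obtain ⟨m', hm'⟩ := Nat.dvd_of_mod_eq_zero h1
      exact ⟨m', by rw [hm, hm', pow_succ, mul_assoc]⟩
  exact key e le_rfl

variable {s : ℕ} {b : Fin s → ℕ}

lemma MM_dvd (hb : ∀ j, 2 ≤ b j) (hc : Pairwise fun i j => Nat.Coprime (b i) (b j))
    {e : Fin s → ℕ} {n : ℕ} (h : ∀ j, radInv (b j) n < 1 / (b j : ℝ) ^ e j) : MM b e ∣ n := by
  unfold MM
  apply Finset.prod_dvd_of_isRelPrime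
  · intro i _ j _ hij
    exact Nat.coprime_iff_isRelPrime.1 (Nat.Coprime.pow _ _ (hc hij))
  · intro j _
    exact dvd_of_radInv (hb j) (h j)

variable (g : ℕ → ℕ)

/-- no point in a box -/
lemma empty_box {α : ℝ} {M k i : ℕ} {A : ℤ} (hM : 0 < M) (hk : 0 < k) (hki : k < 4 ^ (i + 1))
    (hg : 1 ≤ g i)
    (h : |α - (A : ℝ) / ((M * k : ℕ) : ℝ)| < 1 / (16 * 4 ^ i * g i) / ((M * k : ℕ) : ℝ)) {n : ℕ}
    (hn : n < M * k * g i) (hv : M ∣ n) (h1 : 1 / (4 * (k : ℝ)) ≤ Int.fract (n * α))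
    (h2 : Int.fract (n * α) < 3 / (4 * (k : ℝ))) : False := by
  obtain ⟨m, rfl⟩ := hv
  have hkR : (0 : ℝ) < k := by exact_mod_cast hk
  have hMR : (0 : ℝ) < M := by exact_mod_cast hM
  have hm : m < k * g i := by
    have : M * m < M * (k * g i) := by
      calc M * m < M * k * g i := hn
        _ = _ := by ring
    exact lt_of_mul_lt_mul_left this (by positivity)
  have hmR : (m : ℝ) ≤ k * g i := by exact_mod_cast hm.le
  set θ : ℝ := M * α - A / k with hθ
  have hθ1 : |θ| < 1 / (16 * 4 ^ i * g i) / k := by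
    have e : θ = M * (α - (A : ℝ) / ((M * k : ℕ) : ℝ)) := by
      rw [hθ]
      push_cast
      field_simp
    rw [e, abs_mul, abs_of_pos hMR]
    calc (M : ℝ) * |α - (A : ℝ) / ((M * k : ℕ) : ℝ)| <
        M * (1 / (16 * 4 ^ i * g i) / ((M * k : ℕ) : ℝ)) :=
          mul_lt_mul_of_pos_left h hMR
      _ = 1 / (16 * 4 ^ i * g i) / k := by
          push_cast
          field_simp
  have hgR : (1 : ℝ) ≤ g i := by exact_mod_cast hg
  have h4k : (k : ℝ) < 4 * 4 ^ i := by
    have : (k : ℝ) < 4 ^ (i + 1) := by exact_mod_cast hki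
    rw [pow_succ] at this
    linarith
  have hmθ : |(m : ℝ) * θ| < 1 / (4 * k) := by
    rw [abs_mul, Nat.abs_cast]
    calc (m : ℝ) * |θ| ≤ (k * g i) * (1 / (16 * 4 ^ i * g i) / k) := by
          apply mul_le_mul hmR hθ1.le (abs_nonneg _) (by positivity)
      _ = 1 / (4 * (4 * 4 ^ i)) := by
          field_simp
          norm_num
      _ < 1 / (4 * k) := by
          apply one_div_lt_one_div_of_lt (by positivity)
          linarith
  have hval : (((M * m : ℕ)) : ℝ) * α = m * A / k + m * θ := by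
    rw [hθ]
    push_cast
    field_simp
    ring
  set t : ℤ := m * A - k * ⌊(((M * m : ℕ)) : ℝ) * α⌋ with ht
  have hfr : Int.fract ((((M * m : ℕ)) : ℝ) * α) = t / k + m * θ := by
    have h3 := Int.self_sub_floor ((((M * m : ℕ)) : ℝ) * α)
    rw [← h3, ht]
    push_cast
    push_cast at hval
    rw [hval]
    field_simp
    ring
  rw [hfr] at h1 h2
  have h3 := abs_lt.1 hmθ
  have h5 : (0 : ℝ) < (t : ℝ) / k := by linarith
  have h6 : (t : ℝ) / k < 1 / k := by
    have : (1 : ℝ) / k = 3 / (4 * k) + 1 / (4 * k) := by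
      field_simp
      norm_num
    linarith
  have h7 : (0 : ℝ) < t := by
    by_contra h8
    push Not at h8
    have := div_nonpos_of_nonpos_of_nonneg h8 hkR.le
    linarith
  have h8 : (t : ℝ) < 1 := by
    by_contra h9
    push Not at h9
    have := div_le_div_of_nonneg_right h9 hkR.le
    linarith
  have h9 : 0 < t := by exact_mod_cast h7
  have h10 : t < 1 := by exact_mod_cast h8
  omega

/-- divergence of the series of a real rate, in blocks of length `C` -/
lemma blocks {h : ℝ → ℝ} (hmono : Monotone h) (hpos : ∀ x, 0 < h x)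
    (hdiv : ¬ Summable fun n : ℕ => 1 / ((n : ℝ) * h n)) (C : ℕ) (hC : 1 ≤ C) :
    ¬ Summable fun n : ℕ => 1 / ((n : ℝ) * h (C * n)) := by
  intro hs
  apply hdiv
  rw [← summable_nat_add_iff C]
  set F : ℕ → ℝ := fun n => 1 / (((n + 1 : ℕ) : ℝ) * h (C * ((n + 1 : ℕ) : ℝ))) with hF
  have hF0 : ∀ n, 0 ≤ F n := fun n => by
    have := hpos (C * ((n + 1 : ℕ) : ℝ))
    simp only [hF]
    positivity
  have hsF : Summable F := (summable_nat_add_iff 1).2 hs
  have hle : ∀ n : ℕ, 1 / (((n + C : ℕ) : ℝ) * h ((n + C : ℕ) : ℝ)) ≤ F (n / C) := by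
    intro n
    have h1 : C * (n / C + 1) ≤ n + C := by
      have := Nat.mul_div_le n C
      rw [mul_add, mul_one]
      omega
    have h2 : n / C + 1 ≤ n + C := (Nat.le_mul_of_pos_left _ (by omega)).trans h1
    have h3 : (((n / C + 1 : ℕ) : ℝ)) ≤ ((n + C : ℕ) : ℝ) := by exact_mod_cast h2
    have h4 : (C : ℝ) * ((n / C + 1 : ℕ) : ℝ) ≤ ((n + C : ℕ) : ℝ) := by exact_mod_cast h1
    have h5 := hmono h4
    have h6 := hpos (C * ((n / C + 1 : ℕ) : ℝ))
    have h7 : (0 : ℝ) < ((n / C + 1 : ℕ) : ℝ) := by exact_mod_cast Nat.succ_pos _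
    simp only [hF]
    apply one_div_le_one_div_of_le (by positivity)
    exact mul_le_mul h3 h5 h6.le (Nat.cast_nonneg _)
  have hsum : ∀ m : ℕ, ∑ n ∈ range (C * m), F (n / C) = C * ∑ n ∈ range m, F n := by
    intro m
    induction m with
    | zero => simp
    | succ m ih =>
      rw [Nat.mul_succ, sum_range_add, ih, sum_range_succ, mul_add]
      congr 1
      rw [sum_congr rfl (g := fun _ => F m), sum_const, card_range, nsmul_eq_mul]
      intro x hx
      rw [mem_range] at hx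
      congr 1
      rw [Nat.mul_add_div (by omega), Nat.div_eq_of_lt hx, add_zero]
  apply summable_of_sum_range_le (c := C * ∑' n, F n)
  · intro n
    have := hpos ((n + C : ℕ) : ℝ)
    positivity
  · intro m
    calc ∑ n ∈ range m, 1 / (((n + C : ℕ) : ℝ) * h ((n + C : ℕ) : ℝ)) ≤
        ∑ n ∈ range m, F (n / C) := sum_le_sum fun n _ => hle n
      _ ≤ ∑ n ∈ range (C * m), F (n / C) := by
          apply sum_le_sum_of_subset_of_nonneg
          · exact range_subset_range.2 (Nat.le_mul_of_pos_left _ (by omega))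
          · intro n _ _
            exact hF0 _
      _ = C * ∑ n ∈ range m, F n := hsum m
      _ ≤ _ := by
          apply mul_le_mul_of_nonneg_left _ (Nat.cast_nonneg _)
          exact hsF.sum_le_tsum _ fun n _ => hF0 n

end Pool.Agent.KS6_93.HAL
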