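import Mathlib
import Pool.Graph.R_seed8.R335.MK.Disc
import Pool.Agent.KS6_93.HAL.Num

/-!
A mixed Khintchine theorem for denominators `(∏ b_j ^ e_j) k`: for pairwise coprime bases
`b_1, …, b_s` and almost every `α` there are infinitely many reduced fractions with such a
denominator, `1 ≤ e_j ≤ i`, `4 ^ i ≤ k < 4 ^ (i + 1)`, `k` prime to the bases, at distance less than
`1 / (16 4 ^ i g(i) q)` from `α`, if `∑ i ^ s / g(i) = ∞`.
-/

set_option autoImplicit false

open MeasureTheory Filter Topology Finset Metric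

namespace Pool.Agent.KS6_93.HAL

open Pool.Agent.R335.MK (E num vol_E meas_E vol_ball_le card_num overlap chung E_eq)

variable {s : ℕ} (b : Fin s → ℕ) (g : ℕ → ℕ)

/-- the numerator of the radius at level `i` -/
noncomputable def rh (i : ℕ) : ℝ := 1 / (16 * 4 ^ i * g i)

open Classical in
/-- the radius for the denominator `q` -/
noncomputable def dl (q : ℕ) : ℝ :=
  if h : ∃ p : (Fin s → ℕ) × ℕ, (∃ i, p ∈ Sh b i) ∧ qf b p = q then
    rh g (Nat.log 4 h.choose.2) / q else 0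

lemma rh_nonneg (i : ℕ) : 0 ≤ rh g i := by unfold rh; positivity

variable {b}

lemma dl_qf (hb : ∀ j, 2 ≤ b j) (hc : Pairwise fun i j => Nat.Coprime (b i) (b j)) {i : ℕ}
    {p : (Fin s → ℕ) × ℕ} (hp : p ∈ Sh b i) : dl b g (qf b p) = rh g i / qf b p := by
  have h : ∃ p' : (Fin s → ℕ) × ℕ, (∃ i, p' ∈ Sh b i) ∧ qf b p' = qf b p := ⟨p, ⟨i, hp⟩, rfl⟩
  unfold dl
  rw [dif_pos h]
  obtain ⟨⟨i', hi'⟩, h2⟩ := h.choose_spec
  have h3 : h.choose = p := qf_inj hb hc (mem_Sh hi').2.2.2 (mem_Sh hp).2.2.2 h2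
  rw [h3, log_Sh hp]

lemma dl_nonneg (q : ℕ) : 0 ≤ dl b g q := by
  unfold dl
  split_ifs with h
  · exact div_nonneg (rh_nonneg g _) (Nat.cast_nonneg _)
  · exact le_refl _

lemma rh_le_half (i : ℕ) : rh g i ≤ 1 / 2 := by
  unfold rh
  rcases Nat.eq_zero_or_pos (g i) with h | h
  · rw [h]; norm_num
  · have h1 : (1 : ℝ) ≤ g i := by exact_mod_cast h
    have h2 : (1 : ℝ) ≤ 4 ^ i := one_le_pow₀ (by norm_num)
    rw [div_le_div_iff₀ (by positivity) (by norm_num)]
    nlinarith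

lemma dl_tendsto : Tendsto (dl b g) atTop (𝓝 0) := by
  have h1 : Tendsto (fun q : ℕ => 1 / (q : ℝ)) atTop (𝓝 0) := tendsto_one_div_atTop_nhds_zero_nat
  refine squeeze_zero (dl_nonneg g) (fun q => ?_) h1
  unfold dl
  split_ifs
  · gcongr
    exact (rh_le_half g _).trans (by norm_num)
  · positivity

lemma sh_pos (hb : ∀ j, 2 ≤ b j) {i : ℕ} {p : (Fin s → ℕ) × ℕ} (hp : p ∈ Sh b i) :
    0 < qf b p ∧ 0 < p.2 := by
  obtain ⟨h1, h2, h3, h4⟩ := mem_Sh hp
  have hp0 : 0 < p.2 := lt_of_lt_of_le (by positivity) h2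
  exact ⟨Nat.mul_pos (MM_pos hb _) hp0, hp0⟩

/-- the measure of a level from below -/
lemma level_measure (hb : ∀ j, 2 ≤ b j) (hc : Pairwise fun i j => Nat.Coprime (b i) (b j)) {i : ℕ}
    (hi : max (QQ b) 5 ≤ i) :
    1 / (8 * BB b * QQ b) * ((i : ℝ) ^ s / g i) ≤
      ∑ p ∈ Sh b i, (volume : Measure UnitAddCircle).real (E (qf b p) (dl b g (qf b p))) := by
  have hB : (0 : ℝ) < BB b := by exact_mod_cast BB_pos hb
  have hQ : (0 : ℝ) < QQ b := by
    have := QQ_ge hb
    exact_mod_cast (by omega : 0 < QQ b)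
  have h1 : ∀ p ∈ Sh b i, 2 * rh g i / BB b * ((Nat.totient p.2 : ℝ) / p.2) ≤
      (volume : Measure UnitAddCircle).real (E (qf b p) (dl b g (qf b p))) := by
    intro p hp
    obtain ⟨h1, h2, h3, h4⟩ := mem_Sh hp
    obtain ⟨hq, hp0⟩ := sh_pos hb hp
    have hqR : (0 : ℝ) < qf b p := by exact_mod_cast hq
    have hpR : (0 : ℝ) < p.2 := by exact_mod_cast hp0
    have hMR : (0 : ℝ) < MM b p.1 := by exact_mod_cast MM_pos hb p.1
    rw [vol_E hq (dl_nonneg g _)]
    · rw [dl_qf g hb hc hp]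
      have hcop : Nat.Coprime (MM b p.1) p.2 := by
        unfold MM
        apply Nat.Coprime.prod_left
        intro j _
        exact (Nat.Coprime.pow_right _ (coprime_base h4 j)).symm
      have h6 : Nat.totient (qf b p) = Nat.totient (MM b p.1) * Nat.totient p.2 := by
        unfold qf
        rw [Nat.totient_mul hcop]
      have h7 : (qf b p : ℝ) = MM b p.1 * p.2 := by
        unfold qf
        push_cast
        rfl
      rw [h6, h7]
      push_cast
      have h8 := phi_MM hb h1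
      have h9 : 0 ≤ rh g i := rh_nonneg g i
      have h10 : (0 : ℝ) ≤ (Nat.totient p.2 : ℝ) / p.2 := by positivity
      calc 2 * rh g i / BB b * ((Nat.totient p.2 : ℝ) / p.2) =
          2 * rh g i * (1 / (BB b : ℝ)) * ((Nat.totient p.2 : ℝ) / p.2) := by ring
        _ ≤ 2 * rh g i * ((Nat.totient (MM b p.1) : ℝ) / MM b p.1) *
            ((Nat.totient p.2 : ℝ) / p.2) := by gcongr
        _ = _ := by field_simp
    · rw [dl_qf g hb hc hp]
      calc rh g i / qf b p ≤ 1 / 2 / qf b p := by gcongr; exact rh_le_half g i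
        _ = 1 / (2 * qf b p) := by field_simp
  refine le_trans ?_ (sum_le_sum h1)
  unfold Sh
  rw [sum_product]
  simp only
  rw [sum_const, Fintype.card_piFinset, prod_const, Nat.card_Icc, Nat.add_sub_cancel, card_univ,
    Fintype.card_fin, nsmul_eq_mul, ← mul_sum]
  have h2 := sum_phi hb hi
  have h3 : 0 ≤ rh g i := rh_nonneg g i
  push_cast
  calc 1 / (8 * BB b * QQ b) * ((i : ℝ) ^ s / g i) =
      (i : ℝ) ^ s * (2 * rh g i / BB b * (4 ^ i / (QQ b : ℝ))) := by
        unfold rh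
        rcases Nat.eq_zero_or_pos (g i) with h | h
        · rw [h]; simp
        · have h1 : (0 : ℝ) < g i := by exact_mod_cast h
          field_simp
          ring
    _ ≤ _ := by gcongr

/-- the total radius of a level from above -/
lemma level_rho (hb : ∀ j, 2 ≤ b j) (hc : Pairwise fun i j => Nat.Coprime (b i) (b j)) {i : ℕ} :
    ∑ p ∈ Sh b i, (qf b p : ℝ) * dl b g (qf b p) ≤ 3 / 16 * ((i : ℝ) ^ s / g i) := by
  have h1 : ∀ p ∈ Sh b i, (qf b p : ℝ) * dl b g (qf b p) = rh g i := by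
    intro p hp
    obtain ⟨hq, hp0⟩ := sh_pos hb hp
    have hqR : (0 : ℝ) < qf b p := by exact_mod_cast hq
    rw [dl_qf g hb hc hp]
    field_simp
  rw [sum_congr rfl h1, sum_const, nsmul_eq_mul]
  unfold Sh
  rw [card_product, Fintype.card_piFinset, prod_const, Nat.card_Icc, Nat.add_sub_cancel, card_univ,
    Fintype.card_fin]
  push_cast
  have h2 := card_KK_le (b := b) i
  have h3 : 0 ≤ rh g i := rh_nonneg g i
  calc (i : ℝ) ^ s * ((KK b i).card : ℝ) * rh g i ≤ i ^ s * (3 * 4 ^ i) * rh g i := by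
        gcongr
    _ = _ := by
        unfold rh
        rcases Nat.eq_zero_or_pos (g i) with h | h
        · rw [h]; simp
        · have h1 : (0 : ℝ) < g i := by exact_mod_cast h
          field_simp

/-- the second moment step -/
lemma second_moment {ι : Type*} (B : Finset ι) (F : ι → Set UnitAddCircle) (r : ι → ℝ)
    (hF : ∀ p, MeasurableSet (F p)) (hr : ∀ p ∈ B, 0 ≤ r p)
    (hup : ∀ p ∈ B, (volume : Measure UnitAddCircle).real (F p) ≤ 2 * r p)
    (hov : ∀ p ∈ B, ∀ p' ∈ B, p ≠ p' →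
      (volume : Measure UnitAddCircle).real (F p ∩ F p') ≤ 8 * r p * r p')
    {c H : ℝ} (hc0 : 0 < c) (hH : 64 ≤ H)
    (hlow : c * H ≤ ∑ p ∈ B, (volume : Measure UnitAddCircle).real (F p))
    (hR : ∑ p ∈ B, r p ≤ 3 / 16 * H) :
    c ^ 2 ≤ (volume : Measure UnitAddCircle).real (⋃ p ∈ B, F p) := by
  classical
  set R := ∑ p ∈ B, r p with hRdef
  have hR0 : 0 ≤ R := sum_nonneg hr
  have hSup : ∑ p ∈ B, (volume : Measure UnitAddCircle).real (F p) ≤ 2 * R := by
    rw [hRdef, mul_sum]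
    exact sum_le_sum hup
  have hQ : ∑ p ∈ B, ∑ p' ∈ B, (volume : Measure UnitAddCircle).real (F p ∩ F p') ≤
      2 * R + 8 * R ^ 2 := by
    have h1 : ∀ p ∈ B, ∑ p' ∈ B, (volume : Measure UnitAddCircle).real (F p ∩ F p') ≤
        (volume : Measure UnitAddCircle).real (F p) + 8 * r p * R := by
      intro p hp
      rw [← add_sum_erase _ _ hp, Set.inter_self]
      have h2 : ∑ p' ∈ B.erase p, (volume : Measure UnitAddCircle).real (F p ∩ F p') ≤
          ∑ p' ∈ B, 8 * r p * r p' := by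
        calc _ ≤ ∑ p' ∈ B.erase p, 8 * r p * r p' := by
              refine sum_le_sum fun p' hp' => ?_
              exact hov p hp p' (mem_of_mem_erase hp') (ne_of_mem_erase hp').symm
          _ ≤ _ := sum_le_sum_of_subset_of_nonneg (erase_subset _ _) fun p' hp' _ => by
              have h3 := hr p hp
              have h4 := hr p' hp'
              positivity
      rw [← mul_sum] at h2
      linarith
    calc _ ≤ ∑ p ∈ B, ((volume : Measure UnitAddCircle).real (F p) + 8 * r p * R) :=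
          sum_le_sum h1
      _ = ∑ p ∈ B, (volume : Measure UnitAddCircle).real (F p) + 8 * R * R := by
          rw [sum_add_distrib, ← sum_mul, ← mul_sum]
      _ = ∑ p ∈ B, (volume : Measure UnitAddCircle).real (F p) + 8 * R ^ 2 := by
          rw [pow_two]; ring
      _ ≤ _ := by linarith
  have hC := chung (μ := (volume : Measure UnitAddCircle)) B F hF
  set S := ∑ p ∈ B, (volume : Measure UnitAddCircle).real (F p) with hS
  set u := (volume : Measure UnitAddCircle).real (⋃ p ∈ B, F p) with hu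
  have hu0 : 0 ≤ u := measureReal_nonneg
  have h1 : S ^ 2 ≤ (2 * R + 8 * R ^ 2) * u := hC.trans (mul_le_mul_of_nonneg_right hQ hu0)
  have h2 : c ^ 2 * H ^ 2 ≤ S ^ 2 := by
    rw [← mul_pow]
    exact pow_le_pow_left₀ (by positivity) hlow 2
  have h3 : 2 * R + 8 * R ^ 2 ≤ H ^ 2 := by
    have e1 : R ^ 2 ≤ (3 / 16 * H) ^ 2 := pow_le_pow_left₀ hR0 hR 2
    have e2 : (3 / 16 * H) ^ 2 = 9 / 256 * H ^ 2 := by ring
    have e3 : H * 64 ≤ H * H := mul_le_mul_of_nonneg_left hH (by linarith)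
    have e4 : H * H = H ^ 2 := by ring
    linarith
  have h4 : c ^ 2 * H ^ 2 ≤ H ^ 2 * u := by
    calc c ^ 2 * H ^ 2 ≤ (2 * R + 8 * R ^ 2) * u := h2.trans h1
      _ ≤ H ^ 2 * u := mul_le_mul_of_nonneg_right h3 hu0
  have h6 : H ^ 2 * c ^ 2 ≤ H ^ 2 * u := by linarith
  exact le_of_mul_le_mul_left h6 (by positivity)

/-- the measure of the neighbourhood from above -/
lemma vol_E_le {q : ℕ} {δ : ℝ} (hδ : 0 ≤ δ) :
    (volume : Measure UnitAddCircle).real (E q δ) ≤ 2 * (q * δ) := by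
  unfold E
  refine (measureReal_biUnion_finset_le _ _).trans ?_
  calc ∑ a ∈ num q, (volume : Measure UnitAddCircle).real (ball (Pool.Agent.R335.MK.pt q a) δ)
      ≤ ∑ a ∈ num q, 2 * δ := sum_le_sum fun a _ => vol_ball_le _ hδ
    _ = (Nat.totient q) * (2 * δ) := by rw [sum_const, card_num, nsmul_eq_mul]
    _ ≤ (q : ℝ) * (2 * δ) := by
        apply mul_le_mul_of_nonneg_right
        · exact_mod_cast Nat.totient_le _
        · linarith
    _ = _ := by ring

/-- the measure of a block of levels -/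
lemma block_measure (hb : ∀ j, 2 ≤ b j) (hc : Pairwise fun i j => Nat.Coprime (b i) (b j))
    {I J : ℕ} (hI : max (QQ b) 5 ≤ I) (hJ : (64 : ℝ) ≤ ∑ i ∈ Ico I J, (i : ℝ) ^ s / g i) :
    (1 / (8 * BB b * QQ b) : ℝ) ^ 2 ≤ (volume : Measure UnitAddCircle).real
      (⋃ p ∈ (Ico I J).biUnion (Sh b), E (qf b p) (dl b g (qf b p))) := by
  classical
  have hBp : (0 : ℝ) < BB b := by exact_mod_cast BB_pos hb
  have hQp : (0 : ℝ) < QQ b := by
    have := QQ_ge hb
    exact_mod_cast (by omega : 0 < QQ b)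
  have hdis : Set.PairwiseDisjoint (↑(Ico I J) : Set ℕ) (Sh b) := by
    intro a _ a' _ hab
    rw [Function.onFun, Finset.disjoint_left]
    intro p hp1 hp2
    exact hab ((log_Sh hp1).symm.trans (log_Sh hp2))
  have hmem : ∀ p ∈ (Ico I J).biUnion (Sh b), p.2 % QQ b = 1 ∧ 0 < qf b p := by
    intro p hp
    obtain ⟨i, hi, hp⟩ := mem_biUnion.1 hp
    exact ⟨(mem_Sh hp).2.2.2, (sh_pos hb hp).1⟩
  apply second_moment ((Ico I J).biUnion (Sh b)) (fun p => E (qf b p) (dl b g (qf b p)))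
    (fun p => (qf b p : ℝ) * dl b g (qf b p)) (fun p => meas_E _ _)
    (fun p _ => mul_nonneg (Nat.cast_nonneg _) (dl_nonneg g _)) (fun p _ => vol_E_le (dl_nonneg g _))
    ?_ (by positivity) hJ
  · rw [sum_biUnion hdis, mul_sum]
    exact sum_le_sum fun i hi => level_measure g hb hc (hI.trans (mem_Ico.1 hi).1)
  · rw [sum_biUnion hdis, mul_sum]
    exact sum_le_sum fun i hi => level_rho g hb hc (i := i)
  · intro p hp p' hp' hne
    obtain ⟨h3, h4⟩ := hmem p hp
    obtain ⟨h5, h6⟩ := hmem p' hp'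
    exact overlap h4 h6 (fun h => hne (qf_inj hb hc h3 h5 h)) (dl_nonneg g _) (dl_nonneg g _)

/-- **Mixed Khintchine theorem**, general bases and rate. -/
theorem khin (hb : ∀ j, 2 ≤ b j) (hc : Pairwise fun i j => Nat.Coprime (b i) (b j))
    (hdiv : Tendsto (fun m => ∑ i ∈ range m, (i : ℝ) ^ s / g i) atTop atTop) :
    ∀ᵐ x : UnitAddCircle, x ∈ addWellApproximable UnitAddCircle (dl b g) := by
  rcases AddCircle.addWellApproximable_ae_empty_or_univ (T := 1) (dl b g) (dl_tendsto g) with h | h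
  swap
  · exact h
  exfalso
  have hBp : (0 : ℝ) < BB b := by exact_mod_cast BB_pos hb
  have hQp : (0 : ℝ) < QQ b := by
    have := QQ_ge hb
    exact_mod_cast (by omega : 0 < QQ b)
  obtain ⟨c, hcdef⟩ : ∃ c : ℝ, c = 1 / (8 * BB b * QQ b) := ⟨_, rfl⟩
  have hc0 : 0 < c := by rw [hcdef]; positivity
  -- the tails
  set W : ℕ → Set UnitAddCircle := fun n => ⋃ q, ⋃ (_ : n ≤ q ∧ 0 < q), E q (dl b g q) with hW
  have hWm : ∀ n, MeasurableSet (W n) := fun n =>
    MeasurableSet.iUnion fun q => MeasurableSet.iUnion fun _ => meas_E q _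
  have hanti : Antitone W := by
    intro a b hab x hx
    simp only [hW, Set.mem_iUnion] at hx ⊢
    obtain ⟨q, ⟨h1, h2⟩, h3⟩ := hx
    exact ⟨q, ⟨by omega, h2⟩, h3⟩
  have hlow : ∀ n, c ^ 2 ≤ (volume : Measure UnitAddCircle).real (W n) := by
    intro n
    obtain ⟨I, hI⟩ : ∃ I, I = max (n + 1) (max (QQ b) 5) := ⟨_, rfl⟩
    have hI1 : n + 1 ≤ I := by rw [hI]; exact le_max_left _ _
    have hI2 : max (QQ b) 5 ≤ I := by rw [hI]; exact le_max_right _ _
    -- choose the end of the block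
    obtain ⟨J, hJ1, hJ2⟩ : ∃ J, I ≤ J ∧ (64 : ℝ) ≤ ∑ i ∈ Ico I J, (i : ℝ) ^ s / g i := by
      have h2 := (tendsto_atTop.1 hdiv) (64 + ∑ i ∈ range I, (i : ℝ) ^ s / g i)
      obtain ⟨m, hm1, hm2⟩ := (h2.and (eventually_ge_atTop I)).exists
      refine ⟨m, hm2, ?_⟩
      have h4 : ∑ i ∈ range m, (i : ℝ) ^ s / g i =
          ∑ i ∈ range I, (i : ℝ) ^ s / g i + ∑ i ∈ Ico I m, (i : ℝ) ^ s / g i :=
        (sum_range_add_sum_Ico _ hm2).symm
      linarith
    have h1 := block_measure g hb hc hI2 hJ2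
    rw [← hcdef] at h1
    refine h1.trans (measureReal_mono ?_ (measure_ne_top _ _))
    intro x hx
    rw [Set.mem_iUnion₂] at hx
    obtain ⟨p, hp, hxp⟩ := hx
    obtain ⟨i, hi, hp⟩ := mem_biUnion.1 hp
    obtain ⟨h1, h2, h3, h4⟩ := mem_Sh hp
    obtain ⟨hq, hp0⟩ := sh_pos hb hp
    have h6 : i < 4 ^ i := Nat.lt_pow_self (by norm_num)
    have h7 : I ≤ i := (mem_Ico.1 hi).1
    have h8 : p.2 ≤ qf b p := by
      unfold qf
      exact Nat.le_mul_of_pos_left _ (MM_pos hb _)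
    exact Set.mem_iUnion₂.2 ⟨qf b p, ⟨by omega, hq⟩, hxp⟩
  -- the intersection of the tails is null
  have hinter : (⋂ n, W n) ⊆ addWellApproximable UnitAddCircle (dl b g) := by
    intro x hx
    rw [UnitAddCircle.mem_addWellApproximable_iff]
    intro hfin
    obtain ⟨B, hB⟩ := hfin.bddAbove
    have h1 := Set.mem_iInter.1 hx (B + 1)
    simp only [hW, Set.mem_iUnion] at h1
    obtain ⟨q, ⟨h2, h3⟩, h4⟩ := h1
    rw [← E_eq h3, UnitAddCircle.mem_approxAddOrderOf_iff h3] at h4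
    have h5 := hB h4
    omega
  have hnull : (volume : Measure UnitAddCircle) (⋂ n, W n) = 0 := by
    apply measure_mono_null hinter
    rw [ae_iff] at h
    simpa using h
  have hlim : Tendsto (fun n => (volume : Measure UnitAddCircle) (W n)) atTop
      (𝓝 ((volume : Measure UnitAddCircle) (⋂ n, W n))) :=
    tendsto_measure_iInter_atTop (fun n => (hWm n).nullMeasurableSet) hanti ⟨0, measure_ne_top _ _⟩
  rw [hnull] at hlim
  have h6 : ∀ n, ENNReal.ofReal (c ^ 2) ≤ (volume : Measure UnitAddCircle) (W n) := by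
    intro n
    have := hlow n
    rw [measureReal_def] at this
    exact ENNReal.ofReal_le_of_le_toReal this
  have h7 : ENNReal.ofReal (c ^ 2) ≤ 0 := ge_of_tendsto' hlim h6
  have h8 : (0 : ENNReal) < ENNReal.ofReal (c ^ 2) := ENNReal.ofReal_pos.2 (by positivity)
  exact absurd (h8.trans_le h7) (lt_irrefl _)

end Pool.Agent.KS6_93.HAL
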